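import Mathlib

/-!
# The large inductive dimension of products with a paracompact sigma-locally compact factor

Question Q1 of the problem: if `X` is paracompact and `σ`-locally compact, `X × Y` is normal and
both `X` and `Y` satisfy the finite sum theorem for `Ind`, then `Ind (X × Y) ≤ Ind X + Ind Y`.
The answer is positive (`result`).

Conventions. `Ind` is the large inductive dimension with values in `{-1, 0, 1, …, ∞}` (here
`WithTop ℤ`). Paracompact and normal spaces of the problem are Hausdorff: `X` is assumed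
Hausdorff (`T2Space X`) and paracompact (`ParacompactSpace X`), and `X × Y` is assumed to be
normal (`NormalSpace`); the Hausdorff property of `X × Y` is not needed.

Idea of the proof. Write `X = ⋃ K i` with `K i` closed and locally compact.
* `Cov n T`: `T` lies in a finite union of closed rectangles `F × H` with `Ind F + Ind H ≤ n - 1`.
* `LocCov n T`: the same locally in `X`, and locally in `Y` with respect to a continuous map of
  `Y` into a metric space.
* By induction on `n` we show `Ind S ≤ n - 1` for every closed `S ⊆ X × Y` such that for each `i`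
  there are a closed set `D i` disjoint from `K i × Y` and a set `Q i` with `LocCov n (Q i)` and
  `S ⊆ D i ∪ Q i` (`indLT_of_locCov`).
* For a single `K i`, disjoint closed sets can be separated in `S` by an open set whose boundary is
  of the same kind with `n` lowered by one, off a closed set disjoint from `K i × Y`
  (`exists_local_sep`). Here one uses the continuous maps `Y → C(L, ℝ)`, `L ⊆ K i` compact, given
  by an Urysohn function on the normal space `X × Y`.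
* `glue` is a purely topological lemma: the separations for the single `K i` are glued to one
  separation which is good off a closed set disjoint from `K i × Y`, for every `i` at once.

The first part (elementary facts on `Ind` and on finite unions of rectangles) follows the earlier
solution of question Q2 (strongly paracompact products).
-/

set_option autoImplicit false

namespace Pool.Agent.Results.MP_bd525c_gt.IndProductSigmaLC

open Set Topology

universe u v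

/-- `IndLT n X` says `Ind X < n`, that is `Ind X ≤ n - 1`: the space `X` has `Ind X ≤ -1` iff it
is empty, and `Ind X ≤ n` iff for every closed `A` and every open `U ⊇ A` there is an open `V`
with `A ⊆ V ⊆ closure V ⊆ U` and `Ind (frontier V) ≤ n - 1`. -/
def IndLT : ℕ → (X : Type u) → [TopologicalSpace X] → Prop
  | 0, X, _ => IsEmpty X
  | n + 1, X, _ => ∀ A U : Set X, IsClosed A → IsOpen U → A ⊆ U →
      ∃ V : Set X, IsOpen V ∧ A ⊆ V ∧ closure V ⊆ U ∧ IndLT n (frontier V)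

open Classical in
/-- The large inductive dimension, with values in `{-1, 0, 1, 2, …, ∞}`: if `k` is the least
natural number with `Ind X < k`, then `Ind X = k - 1`; if there is no such `k`, then
`Ind X = ∞`. -/
noncomputable def Ind (X : Type u) [TopologicalSpace X] : WithTop ℤ :=
  if h : ∃ k : ℕ, IndLT k X then ((((Nat.find h : ℕ) : ℤ) - 1 : ℤ) : WithTop ℤ) else ⊤

/-- `X` satisfies the finite sum theorem for `Ind`: for every nonempty finite family
`F 0, …, F n` of closed subsets of `X`, `Ind (⋃ i, F i) ≤ max_i Ind (F i)`. -/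
def FiniteSumTheorem (X : Type u) [TopologicalSpace X] : Prop :=
  ∀ (n : ℕ) (F : Fin (n + 1) → Set X), (∀ i, IsClosed (F i)) →
    Ind (⋃ i, F i : Set X) ≤ Finset.univ.sup' Finset.univ_nonempty (fun i => Ind (F i))

/-- `X` is `σ`-locally compact: it is the union of countably many closed locally compact
subspaces. -/
def SigmaLocallyCompact (X : Type u) [TopologicalSpace X] : Prop :=
  ∃ K : ℕ → Set X, (∀ i, IsClosed (K i)) ∧ (∀ i, LocallyCompactSpace (K i)) ∧ ⋃ i, K i = univ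

/-! ### Basic facts on `Ind` -/

theorem IndLT.of_isClosedEmbedding (n : ℕ) : ∀ {X Y : Type u} [TopologicalSpace X]
    [TopologicalSpace Y] {f : X → Y}, IsClosedEmbedding f → IndLT n Y → IndLT n X := by
  induction n with
  | zero =>
    intro X Y _ _ f _ hY
    exact ⟨fun x => hY.false (f x)⟩
  | succ n ih =>
    intro X Y _ _ f hf hY A U hA hU hAU
    obtain ⟨U', hU', rfl⟩ := hf.isInducing.isOpen_iff.1 hU
    obtain ⟨V, hV, hAV, hVU, hfr⟩ := hY (f '' A) U' (hf.isClosedMap A hA) hU'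
      (image_subset_iff.2 hAU)
    refine ⟨f ⁻¹' V, hV.preimage hf.continuous, image_subset_iff.1 hAV, ?_, ?_⟩
    · exact (hf.continuous.closure_preimage_subset V).trans (preimage_mono hVU)
    · have h1 : frontier (f ⁻¹' V) ⊆ f ⁻¹' (frontier V) := by
        rw [(hV.preimage hf.continuous).frontier_eq, hV.frontier_eq]
        intro x hx
        exact ⟨hf.continuous.closure_preimage_subset V hx.1, hx.2⟩
      have h2 : IsClosedEmbedding (fun x : frontier (f ⁻¹' V) => (⟨f x, h1 x.2⟩ : frontier V)) := by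
        have h3 : IsClosedEmbedding (fun x : frontier (f ⁻¹' V) => f x) :=
          hf.comp isClosed_frontier.isClosedEmbedding_subtypeVal
        exact IsClosedEmbedding.of_comp (g := Subtype.val) IsEmbedding.subtypeVal h3
      exact ih h2 hfr

theorem IndLT.mono_set {n : ℕ} {X : Type u} [TopologicalSpace X] {S T : Set X} (hS : IsClosed S)
    (hST : S ⊆ T) (h : IndLT n T) : IndLT n S := by
  refine IndLT.of_isClosedEmbedding n (f := Set.inclusion hST) ?_ h
  refine ⟨Topology.IsEmbedding.inclusion hST, ?_⟩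
  rw [range_inclusion]
  exact hS.preimage continuous_subtype_val

theorem IndLT.succ {n : ℕ} : ∀ {X : Type u} [TopologicalSpace X], IndLT n X → IndLT (n + 1) X := by
  induction n with
  | zero =>
    intro X _ h A U _ _ _
    refine ⟨∅, isOpen_empty, fun x _ => (h.false x).elim, fun x _ => (h.false x).elim, ?_⟩
    exact ⟨fun x => h.false x.1⟩
  | succ n ih =>
    intro X _ h A U hA hU hAU
    obtain ⟨V, h1, h2, h3, h4⟩ := h A U hA hU hAU
    exact ⟨V, h1, h2, h3, ih h4⟩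

theorem IndLT.mono {n m : ℕ} (h : n ≤ m) {X : Type u} [TopologicalSpace X] (hX : IndLT n X) :
    IndLT m X := by
  induction h with
  | refl => exact hX
  | step _ ih => exact ih.succ

/-- `Ind X ≤ n - 1` in the sense of the relation `IndLT` and of the value `Ind`. -/
theorem ind_lt_iff (n : ℕ) (X : Type u) [TopologicalSpace X] :
    Ind X < ((n : ℤ) : WithTop ℤ) ↔ IndLT n X := by
  classical
  unfold Ind
  by_cases h : ∃ k : ℕ, IndLT k X
  · rw [dif_pos h, WithTop.coe_lt_coe]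
    constructor
    · intro hlt
      exact IndLT.mono (by omega) (Nat.find_spec h)
    · intro hn
      have := Nat.find_min' h hn
      omega
  · rw [dif_neg h]
    constructor
    · intro hlt
      exact absurd hlt not_top_lt
    · intro hn
      exact absurd ⟨n, hn⟩ h

theorem IndLT.empty (n : ℕ) {X : Type u} [TopologicalSpace X] : IndLT n (∅ : Set X) :=
  IndLT.mono (Nat.zero_le n) (show IndLT 0 (∅ : Set X) from ⟨fun x => x.2⟩)

theorem FiniteSumTheorem.union {X : Type u} [TopologicalSpace X] (hX : FiniteSumTheorem X)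
    {n : ℕ} {S T : Set X} (hS : IsClosed S) (hT : IsClosed T) (h1 : IndLT n S) (h2 : IndLT n T) :
    IndLT n (S ∪ T : Set X) := by
  have h := hX 1 ![S, T] (by
    intro i
    fin_cases i
    · exact hS
    · exact hT)
  have hU : (⋃ i : Fin 2, (![S, T] : Fin 2 → Set X) i) = S ∪ T := by
    ext x
    simp [Fin.exists_fin_two]
  rw [← ind_lt_iff] at h1 h2 ⊢
  rw [hU] at h
  refine lt_of_le_of_lt h ?_
  rw [Finset.sup'_lt_iff]
  intro i _
  fin_cases i
  · exact h1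
  · exact h2


theorem IndLT.of_subset_image {n : ℕ} {X : Type u} [TopologicalSpace X] {F : Set X} {T : Set F}
    {D : Set X} (hD : IsClosed D) (h : D ⊆ Subtype.val '' T) (hT : IndLT n T) : IndLT n D := by
  have h1 : ∀ x ∈ D, ∃ hx : x ∈ F, (⟨x, hx⟩ : F) ∈ T := by
    intro x hx
    obtain ⟨t, ht, rfl⟩ := h hx
    exact ⟨t.2, ht⟩
  refine IndLT.of_isClosedEmbedding n
    (f := fun x : D => (⟨⟨x.1, (h1 x.1 x.2).1⟩, (h1 x.1 x.2).2⟩ : T)) ?_ hT
  exact IsClosedEmbedding.of_comp (g := fun t : T => ((t : F) : X))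
    (IsEmbedding.subtypeVal.comp IsEmbedding.subtypeVal) hD.isClosedEmbedding_subtypeVal

theorem IndLT.of_image_subset {n : ℕ} {X : Type u} [TopologicalSpace X] {F : Set X}
    (hF : IsClosed F) {T : Set F} {D : Set X} (hT : IsClosed T) (h : Subtype.val '' T ⊆ D)
    (hD : IndLT n D) : IndLT n T := by
  refine IndLT.of_isClosedEmbedding n
    (f := fun x : T => (⟨x.1.1, h ⟨x.1, x.2, rfl⟩⟩ : D)) ?_ hD
  exact IsClosedEmbedding.of_comp (g := fun t : D => (t : X)) IsEmbedding.subtypeVal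
    (hF.isClosedEmbedding_subtypeVal.comp hT.isClosedEmbedding_subtypeVal)

/-- The definition of `IndLT (n + 1)` for a closed subspace, in terms of the ambient space. -/
theorem exists_relOpen {n : ℕ} {X : Type u} [TopologicalSpace X] {F : Set X} (hF : IsClosed F)
    (h : IndLT (n + 1) F) {C U : Set X} (hC : IsClosed C) (hU : IsOpen U) (hCU : C ⊆ U) :
    ∃ G G' : Set X, IsOpen G' ∧ G = F ∩ G' ∧ F ∩ C ⊆ G ∧ closure G ⊆ U ∧
      IsClosed (closure G \ G) ∧ IndLT n (closure G \ G : Set X) := by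
  obtain ⟨V, hV, hAV, hVU, hfr⟩ := h (Subtype.val ⁻¹' C) (Subtype.val ⁻¹' U)
    (hC.preimage continuous_subtype_val) (hU.preimage continuous_subtype_val) (preimage_mono hCU)
  obtain ⟨G', hG', rfl⟩ := isOpen_induced_iff.1 hV
  have hcl : closure (F ∩ G') = Subtype.val '' closure (Subtype.val ⁻¹' G' : Set F) := by
    rw [← hF.isClosedEmbedding_subtypeVal.closure_image_eq, Subtype.image_preimage_coe]
  have hclF : closure (F ∩ G') ⊆ F := closure_minimal inter_subset_left hF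
  have hD : closure (F ∩ G') \ (F ∩ G') = closure (F ∩ G') ∩ G'ᶜ := by
    ext x
    constructor
    · rintro ⟨h1, h2⟩
      exact ⟨h1, fun h3 => h2 ⟨hclF h1, h3⟩⟩
    · rintro ⟨h1, h2⟩
      exact ⟨h1, fun h3 => h2 h3.2⟩
  have hDc : IsClosed (closure (F ∩ G') \ (F ∩ G')) := by
    rw [hD]
    exact isClosed_closure.inter hG'.isClosed_compl
  refine ⟨F ∩ G', G', hG', rfl, ?_, ?_, hDc, ?_⟩
  · rintro x ⟨hx, hxC⟩
    exact ⟨hx, @hAV ⟨x, hx⟩ hxC⟩
  · rw [hcl]
    rintro _ ⟨x, hx, rfl⟩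
    exact hVU hx
  · refine IndLT.of_subset_image hDc ?_ hfr
    rintro x ⟨h1, h2⟩
    rw [hcl] at h1
    obtain ⟨t, ht, rfl⟩ := h1
    refine ⟨t, ?_, rfl⟩
    rw [hV.frontier_eq]
    exact ⟨ht, fun h3 => h2 ⟨t.2, h3⟩⟩

/-! ### Sets covered by finitely many rectangles of small total dimension -/

section Product

variable {X : Type u} {Y : Type v} [TopologicalSpace X] [TopologicalSpace Y]

/-- `Cov n T`: the set `T` is contained in a finite union of closed rectangles `F a ×ˢ H a`,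
`a < n`, with `Ind (F a) ≤ a` and `Ind (H a) ≤ n - 1 - a`. -/
def Cov (n : ℕ) (T : Set (X × Y)) : Prop :=
  ∃ (F : ℕ → Set X) (H : ℕ → Set Y), (∀ a, IsClosed (F a)) ∧ (∀ a, IsClosed (H a)) ∧
    (∀ a b, a + b + 1 = n → IndLT (a + 1) (F a) ∧ IndLT (b + 1) (H a)) ∧
    ∀ z ∈ T, ∃ a, a < n ∧ z.1 ∈ F a ∧ z.2 ∈ H a

theorem Cov.mono {n : ℕ} {S T : Set (X × Y)} (hST : S ⊆ T) (h : Cov n T) : Cov n S := by
  obtain ⟨F, H, h1, h2, h3, h4⟩ := h
  exact ⟨F, H, h1, h2, h3, fun z hz => h4 z (hST hz)⟩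

theorem Cov.empty (n : ℕ) : Cov n (∅ : Set (X × Y)) :=
  ⟨fun _ => ∅, fun _ => ∅, fun _ => isClosed_empty, fun _ => isClosed_empty,
    fun _ _ _ => ⟨IndLT.empty _, IndLT.empty _⟩, fun _ hz => hz.elim⟩

theorem Cov.rect {n a b : ℕ} (hab : a + b + 1 ≤ n) {F : Set X} {H : Set Y} (hF : IsClosed F)
    (hH : IsClosed H) (hF' : IndLT (a + 1) F) (hH' : IndLT (b + 1) H) : Cov n (F ×ˢ H) := by
  classical
  refine ⟨fun i => if i = a then F else ∅, fun i => if i = a then H else ∅, ?_, ?_, ?_, ?_⟩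
  · intro i
    dsimp only
    split_ifs
    · exact hF
    · exact isClosed_empty
  · intro i
    dsimp only
    split_ifs
    · exact hH
    · exact isClosed_empty
  · intro i j hij
    beta_reduce
    by_cases h : i = a
    · subst h
      rw [if_pos rfl, if_pos rfl]
      exact ⟨hF', hH'.mono (by omega)⟩
    · rw [if_neg h, if_neg h]
      exact ⟨IndLT.empty _, IndLT.empty _⟩
  · rintro z ⟨hz1, hz2⟩
    refine ⟨a, by omega, ?_, ?_⟩
    · simpa using hz1
    · simpa using hz2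

theorem Cov.union (hX : FiniteSumTheorem X) (hY : FiniteSumTheorem Y) {n : ℕ}
    {S T : Set (X × Y)} (hS : Cov n S) (hT : Cov n T) : Cov n (S ∪ T) := by
  obtain ⟨F, H, h1, h2, h3, h4⟩ := hS
  obtain ⟨F', H', h1', h2', h3', h4'⟩ := hT
  refine ⟨fun a => F a ∪ F' a, fun a => H a ∪ H' a, fun a => (h1 a).union (h1' a),
    fun a => (h2 a).union (h2' a), ?_, ?_⟩
  · intro a b hab
    exact ⟨hX.union (h1 a) (h1' a) (h3 a b hab).1 (h3' a b hab).1,
      hY.union (h2 a) (h2' a) (h3 a b hab).2 (h3' a b hab).2⟩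
  · rintro z (hz | hz)
    · obtain ⟨a, ha, hz1, hz2⟩ := h4 z hz
      exact ⟨a, ha, Or.inl hz1, Or.inl hz2⟩
    · obtain ⟨a, ha, hz1, hz2⟩ := h4' z hz
      exact ⟨a, ha, Or.inr hz1, Or.inr hz2⟩

theorem Cov.biUnion (hX : FiniteSumTheorem X) (hY : FiniteSumTheorem Y) {n : ℕ} {ι : Type*}
    (s : Finset ι) (T : ι → Set (X × Y)) (h : ∀ i ∈ s, Cov n (T i)) :
    Cov n (⋃ i ∈ s, T i) := by
  classical
  induction s using Finset.induction_on with
  | empty => simpa using Cov.empty n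
  | insert i s his ih =>
    rw [Finset.set_biUnion_insert]
    exact Cov.union hX hY (h i (Finset.mem_insert_self i s))
      (ih fun j hj => h j (Finset.mem_insert_of_mem hj))

/-- The difference of a rectangle of relatively open sets: the pieces of a closed rectangle
outside an open subrectangle form a closed set. -/
theorem isClosed_diff_rect {F G' : Set X} {H K' : Set Y} (hF : IsClosed F) (hG' : IsOpen G')
    (hH : IsClosed H) (hK' : IsOpen K') :
    IsClosed {z : X × Y | z.1 ∈ F ∧ z.2 ∈ H ∧ ¬ (z.1 ∈ F ∩ G' ∧ z.2 ∈ H ∩ K')} := by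
  have : {z : X × Y | z.1 ∈ F ∧ z.2 ∈ H ∧ ¬ (z.1 ∈ F ∩ G' ∧ z.2 ∈ H ∩ K')} =
      (F ∩ G'ᶜ) ×ˢ H ∪ F ×ˢ (H ∩ K'ᶜ) := by
    ext z
    simp only [mem_ofPred_eq, mem_inter_iff, mem_union, mem_prod, mem_compl_iff]
    tauto
  rw [this]
  exact ((hF.inter hG'.isClosed_compl).prod hH).union (hF.prod (hH.inter hK'.isClosed_compl))


end Product

/-! ### Abstract gluing -/

/-- Abstract gluing along an increasing sequence of closed sets. -/
theorem glue {Z : Type*} [TopologicalSpace Z] [NormalSpace Z] (K : ℕ → Set Z)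
    (hKc : ∀ i, IsClosed (K i)) (hKcov : ∀ z, ∃ i, z ∈ K i)
    (𝓠 : Set Z → Prop) (hQu : ∀ P Q, 𝓠 P → 𝓠 Q → 𝓠 (P ∪ Q))
    (H : ∀ i (A B : Set Z), IsClosed A → IsClosed B → Disjoint A B →
      ∃ G D Q : Set Z, IsOpen G ∧ A ⊆ G ∧ Disjoint (closure G) B ∧ IsClosed D ∧
        Disjoint D (K i) ∧ 𝓠 Q ∧ frontier G ⊆ D ∪ Q)
    (A B : Set Z) (hA : IsClosed A) (hB : IsClosed B) (hAB : Disjoint A B) :
    ∃ V : Set Z, IsOpen V ∧ A ⊆ V ∧ Disjoint (closure V) B ∧
      ∀ i, ∃ D Q : Set Z, IsClosed D ∧ Disjoint D (K i) ∧ 𝓠 Q ∧ frontier V ⊆ D ∪ Q := by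
  classical
  -- the data at one stage
  let P : ℕ → Set Z × Set Z × Set Z × Set Z → Prop := fun i p =>
    IsOpen p.1 ∧ A ⊆ p.1 ∧ Disjoint (closure p.1) B ∧ IsClosed p.2.1 ∧ 𝓠 p.2.2.1 ∧
      frontier p.1 ⊆ p.2.1 ∪ p.2.2.1 ∧ IsClosed p.2.2.2 ∧ p.2.1 ⊆ interior p.2.2.2 ∧
      Disjoint p.2.2.2 (K i)
  have h0 : ∃ p, P 0 p := by
    obtain ⟨G, D, Q, hG, hAG, hGB, hD, hDK, hQ, hfr⟩ := H 0 A B hA hB hAB
    obtain ⟨W, hW, hDW, hWK⟩ := normal_exists_closure_subset hD (hKc 0).isOpen_compl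
      (disjoint_left.1 hDK)
    refine ⟨(G, D, Q, closure W), hG, hAG, hGB, hD, hQ, hfr, isClosed_closure, ?_, ?_⟩
    · exact hDW.trans (interior_maximal subset_closure hW)
    · exact disjoint_left.2 hWK
  have hstep : ∀ i p, P i p → ∃ p', P (i + 1) p' ∧ p'.2.2.2 ⊆ p.2.2.2 ∧
      p'.1 \ p.2.2.2 = p.1 \ p.2.2.2 := by
    rintro i ⟨V, D, Q, C⟩ ⟨hV, hAV, hVB, hD, hQ, hfr, hC, hDC, hCK⟩
    dsimp only at hV hAV hVB hD hQ hfr hC hDC hCK ⊢
    obtain ⟨G, D1, Q1, hG, hAG, hGB, hD1, hDK1, hQ1, hfr1⟩ := H (i + 1) A B hA hB hAB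
    obtain ⟨O, D2, Q2, hO, hDO, hOC, hD2, hDK2, hQ2, hfr2⟩ := H (i + 1) D (interior C)ᶜ hD
      isOpen_interior.isClosed_compl (disjoint_compl_right_iff_subset.2 hDC)
    rw [disjoint_compl_right_iff_subset] at hOC
    have hOC' : closure O ⊆ C := hOC.trans interior_subset
    let D' : Set Z := (D1 ∪ D2) ∩ closure O
    have hD' : IsClosed D' := (hD1.union hD2).inter isClosed_closure
    have hD'K : Disjoint D' (K (i + 1)) :=
      (disjoint_union_left.2 ⟨hDK1, hDK2⟩).mono_left inter_subset_left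
    obtain ⟨W, hW, hDW, hWK⟩ := normal_exists_closure_subset hD'
      (isOpen_interior.inter (hKc (i + 1)).isOpen_compl)
      (show D' ⊆ interior C ∩ (K (i + 1))ᶜ from
        fun z hz => ⟨hOC hz.2, disjoint_left.1 hD'K hz⟩)
    let V' : Set Z := (G ∩ O) ∪ (V \ closure O) ∪ (V ∩ G)
    have hV' : IsOpen V' := ((hG.inter hO).union (hV.sdiff isClosed_closure)).union (hV.inter hG)
    have hVC : V' \ C = V \ C := by
      ext z
      constructor
      · rintro ⟨(⟨-, h2⟩ | ⟨h1, -⟩) | ⟨h1, -⟩, h3⟩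
        · exact (h3 (hOC' (subset_closure h2))).elim
        · exact ⟨h1, h3⟩
        · exact ⟨h1, h3⟩
      · rintro ⟨h1, h3⟩
        exact ⟨Or.inl (Or.inr ⟨h1, fun h => h3 (hOC' h)⟩), h3⟩
    have hAV' : A ⊆ V' := fun a ha => Or.inr ⟨hAV ha, hAG ha⟩
    have hV'GV : V' ⊆ G ∪ V := by
      rintro z ((⟨h1, h2⟩ | ⟨h1, -⟩) | ⟨h1, -⟩)
      · exact Or.inl h1
      · exact Or.inr h1
      · exact Or.inr h1
    have hV'B : Disjoint (closure V') B := by
      refine Disjoint.mono_left (closure_mono hV'GV) ?_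
      rw [closure_union]
      exact disjoint_union_left.2 ⟨hGB, hVB⟩
    have hfr' : frontier V' ⊆ D' ∪ (Q ∪ (Q1 ∪ Q2)) := by
      rw [hV'.frontier_eq]
      rintro z ⟨hz1, hz2⟩
      by_cases hzO : z ∈ closure O
      · by_cases hzO' : z ∈ O
        · -- near `z` the set `V'` is `G`
          have hzG : z ∉ G := fun h => hz2 (Or.inl (Or.inl ⟨h, hzO'⟩))
          have hzG' : z ∈ closure G := by
            have h1 : z ∈ closure (O ∩ V') := hO.inter_closure ⟨hzO', hz1⟩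
            refine closure_mono ?_ h1
            rintro w ⟨hw1, (⟨h1, h2⟩ | ⟨h1, h2⟩) | ⟨h1, h2⟩⟩
            · exact h1
            · exact (h2 (subset_closure hw1)).elim
            · exact h2
          have : z ∈ frontier G := by
            rw [hG.frontier_eq]; exact ⟨hzG', hzG⟩
          rcases hfr1 this with h | h
          · exact Or.inl ⟨Or.inl h, hzO⟩
          · exact Or.inr (Or.inr (Or.inl h))
        · have : z ∈ frontier O := by
            rw [hO.frontier_eq]; exact ⟨hzO, hzO'⟩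
          rcases hfr2 this with h | h
          · exact Or.inl ⟨Or.inr h, hzO⟩
          · exact Or.inr (Or.inr (Or.inr h))
      · have hzV : z ∉ V := fun h => hz2 (Or.inl (Or.inr ⟨h, hzO⟩))
        have hzV' : z ∈ closure V := by
          have h1 : z ∈ closure ((closure O)ᶜ ∩ V') :=
            isClosed_closure.isOpen_compl.inter_closure ⟨hzO, hz1⟩
          refine closure_mono ?_ h1
          rintro w ⟨hw1, (⟨h1, h2⟩ | ⟨h1, h2⟩) | ⟨h1, h2⟩⟩
          · exact (hw1 (subset_closure h2)).elim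
          · exact h1
          · exact h1
        have : z ∈ frontier V := by
          rw [hV.frontier_eq]; exact ⟨hzV', hzV⟩
        rcases hfr this with h | h
        · exact (hzO (subset_closure (hDO h))).elim
        · exact Or.inr (Or.inl h)
    refine ⟨(V', D', Q ∪ (Q1 ∪ Q2), closure W), ⟨hV', hAV', hV'B, hD',
      hQu _ _ hQ (hQu _ _ hQ1 hQ2), hfr', isClosed_closure, ?_, ?_⟩, ?_, hVC⟩
    · exact hDW.trans (interior_maximal subset_closure hW)
    · exact disjoint_left.2 fun z hz => (hWK hz).2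
    · exact fun z hz => interior_subset (hWK hz).1
  -- the recursion
  choose! nxt hnxt using hstep
  obtain ⟨p0, hp0⟩ := h0
  let s : ℕ → Set Z × Set Z × Set Z × Set Z := fun n => Nat.rec p0 (fun i p => nxt i p) n
  have hs : ∀ n, P n (s n) := by
    intro n
    induction n with
    | zero => exact hp0
    | succ n ih => exact (hnxt n (s n) ih).1
  have hsC : ∀ n, (s (n + 1)).2.2.2 ⊆ (s n).2.2.2 := fun n => (hnxt n (s n) (hs n)).2.1
  have hsV : ∀ n, (s (n + 1)).1 \ (s n).2.2.2 = (s n).1 \ (s n).2.2.2 :=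
    fun n => (hnxt n (s n) (hs n)).2.2
  have hCanti : ∀ i j, i ≤ j → (s j).2.2.2 ⊆ (s i).2.2.2 := by
    intro i j hij
    induction hij with
    | refl => exact Subset.rfl
    | step _ ih => exact (hsC _).trans ih
  have hVeq : ∀ i j, i ≤ j → (s j).1 \ (s i).2.2.2 = (s i).1 \ (s i).2.2.2 := by
    intro i j hij
    induction hij with
    | refl => rfl
    | @step j hij ih =>
      rw [← ih]
      ext z
      constructor
      · rintro ⟨h1, h2⟩
        have h3 : z ∈ (s (j + 1)).1 \ (s j).2.2.2 := ⟨h1, fun h => h2 (hCanti i j hij h)⟩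
        rw [hsV j] at h3
        exact ⟨h3.1, h2⟩
      · rintro ⟨h1, h2⟩
        have h3 : z ∈ (s j).1 \ (s j).2.2.2 := ⟨h1, fun h => h2 (hCanti i j hij h)⟩
        rw [← hsV j] at h3
        exact ⟨h3.1, h2⟩
  let V : Set Z := ⋃ i, (s i).1 \ (s i).2.2.2
  have hV : IsOpen V := isOpen_iUnion fun i => (hs i).1.sdiff (hs i).2.2.2.2.2.2.1
  have hVi : ∀ i, V \ (s i).2.2.2 = (s i).1 \ (s i).2.2.2 := by
    intro i
    ext z
    constructor
    · rintro ⟨h1, h2⟩
      obtain ⟨j, hj1, hj2⟩ := mem_iUnion.1 h1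
      rcases le_total i j with hij | hij
      · rw [← hVeq i j hij]
        exact ⟨hj1, h2⟩
      · have h3 : z ∈ (s j).1 \ (s j).2.2.2 := ⟨hj1, hj2⟩
        rw [← hVeq j i hij] at h3
        exact ⟨h3.1, h2⟩
    · rintro ⟨h1, h2⟩
      exact ⟨mem_iUnion.2 ⟨i, h1, h2⟩, h2⟩
  have hnear : ∀ i z, z ∉ (s i).2.2.2 → z ∈ closure V → z ∈ closure (s i).1 := by
    intro i z hz1 hz2
    have h1 : z ∈ closure (((s i).2.2.2)ᶜ ∩ V) :=
      (hs i).2.2.2.2.2.2.1.isOpen_compl.inter_closure ⟨hz1, hz2⟩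
    refine closure_mono ?_ h1
    rintro w ⟨hw1, hw2⟩
    have h3 : w ∈ V \ (s i).2.2.2 := ⟨hw2, hw1⟩
    rw [hVi i] at h3
    exact h3.1
  refine ⟨V, hV, ?_, ?_, ?_⟩
  · intro a ha
    obtain ⟨i, hi⟩ := hKcov a
    have h1 : a ∉ (s i).2.2.2 := fun h => disjoint_left.1 (hs i).2.2.2.2.2.2.2.2 h hi
    exact mem_iUnion.2 ⟨i, (hs i).2.1 ha, h1⟩
  · rw [disjoint_left]
    intro b hb1 hb2
    obtain ⟨i, hi⟩ := hKcov b
    have h1 : b ∉ (s i).2.2.2 := fun h => disjoint_left.1 (hs i).2.2.2.2.2.2.2.2 h hi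
    exact disjoint_left.1 (hs i).2.2.1 (hnear i b h1 hb1) hb2
  · intro i
    refine ⟨(s i).2.2.2, (s i).2.2.1, (hs i).2.2.2.2.2.2.1, (hs i).2.2.2.2.2.2.2.2,
      (hs i).2.2.2.2.1, ?_⟩
    rw [hV.frontier_eq]
    rintro z ⟨hz1, hz2⟩
    by_cases hzC : z ∈ (s i).2.2.2
    · exact Or.inl hzC
    · right
      have h1 : z ∈ frontier (s i).1 := by
        rw [(hs i).1.frontier_eq]
        refine ⟨hnear i z hzC hz1, fun h => hz2 ?_⟩
        have h3 : z ∈ (s i).1 \ (s i).2.2.2 := ⟨h, hzC⟩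
        rw [← hVi i] at h3
        exact h3.1
      rcases (hs i).2.2.2.2.2.1 h1 with h | h
      · exact (hzC (interior_subset ((hs i).2.2.2.2.2.2.2.1 h))).elim
      · exact h

/-- Removing the error set of a partial separation. -/
theorem fix_sep {Z : Type*} [TopologicalSpace Z] [NormalSpace Z] {K A B G D Q : Set Z}
    (hK : IsClosed K) (hA : IsClosed A) (hB : IsClosed B) (hAB : Disjoint A B)
    (hG : IsOpen G) (hD : IsClosed D) (hDK : Disjoint D K) (hAG : A ⊆ G ∪ D)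
    (hGB : closure G ∩ B ⊆ D) (hfr : frontier G ⊆ D ∪ Q) :
    ∃ G' D' : Set Z, IsOpen G' ∧ A ⊆ G' ∧ Disjoint (closure G') B ∧ IsClosed D' ∧
      Disjoint D' K ∧ frontier G' ⊆ D' ∪ Q := by
  obtain ⟨W2, hW2, hDW2, hW2K⟩ := normal_exists_closure_subset hD hK.isOpen_compl
    (disjoint_left.1 hDK)
  obtain ⟨W1, hW1, hDW1, hW1W2⟩ := normal_exists_closure_subset hD hW2 hDW2
  obtain ⟨E, hE, hAE, hEB⟩ := normal_exists_closure_subset hA hB.isOpen_compl
    (disjoint_left.1 hAB)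
  have hG' : IsOpen ((G \ closure W1) ∪ (E ∩ W2)) :=
    (hG.sdiff isClosed_closure).union (hE.inter hW2)
  refine ⟨(G \ closure W1) ∪ (E ∩ W2), closure W2, hG', ?_, ?_, isClosed_closure,
    disjoint_left.2 hW2K, ?_⟩
  · intro a ha
    by_cases h : a ∈ W2
    · exact Or.inr ⟨hAE ha, h⟩
    · have h1 : a ∉ closure W1 := fun h1 => h (hW1W2 h1)
      rcases hAG ha with h2 | h2
      · exact Or.inl ⟨h2, h1⟩
      · exact (h1 (subset_closure (hDW1 h2))).elim
  · rw [disjoint_left]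
    intro b hb1 hb2
    rw [closure_union] at hb1
    rcases hb1 with h | h
    · have h1 : b ∈ closure G := closure_mono sdiff_subset h
      have h2 : b ∈ D := hGB ⟨h1, hb2⟩
      have h3 : b ∈ closure (W1 ∩ (G \ closure W1)) := hW1.inter_closure ⟨hDW1 h2, h⟩
      have h4 : W1 ∩ (G \ closure W1) = ∅ := by
        rw [eq_empty_iff_forall_notMem]
        rintro z ⟨h5, h6⟩
        exact h6.2 (subset_closure h5)
      rw [h4, closure_empty] at h3
      exact h3
    · exact hEB (closure_mono inter_subset_left h) hb2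
  · rw [hG'.frontier_eq]
    rintro z ⟨hz1, hz2⟩
    by_cases hzW : z ∈ closure W2
    · exact Or.inl hzW
    · have h1 : z ∉ closure W1 := fun h => hzW (subset_closure (hW1W2 h))
      have h2 : z ∈ closure ((closure W2)ᶜ ∩ ((G \ closure W1) ∪ (E ∩ W2))) :=
        isClosed_closure.isOpen_compl.inter_closure ⟨hzW, hz1⟩
      have h3 : z ∈ closure G := by
        refine closure_mono ?_ h2
        rintro w ⟨hw, h | h⟩
        · exact h.1
        · exact (hw (subset_closure h.2)).elim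
      have h4 : z ∈ frontier G := by
        rw [hG.frontier_eq]
        exact ⟨h3, fun h => hz2 (Or.inl ⟨h, h1⟩)⟩
      rcases hfr h4 with h | h
      · exact (h1 (subset_closure (hDW1 h))).elim
      · exact Or.inr h


/-! ### Local pieces -/

section Product

variable {X : Type u} {Y : Type v} [TopologicalSpace X] [TopologicalSpace Y]

/-- A piece: an open set squeezed between two rectangles, whose relative boundary is again
covered by finitely many rectangles, of smaller total dimension. -/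
theorem exists_piece (hX : FiniteSumTheorem X) (hY : FiniteSumTheorem Y) {m : ℕ}
    {T : Set (X × Y)} {U C : Set X} {V D : Set Y} (hU : IsOpen U) (hC : IsClosed C) (hCU : C ⊆ U)
    (hV : IsOpen V) (hD : IsClosed D) (hDV : D ⊆ V) (hcov : Cov (m + 1) (T ∩ U ×ˢ V)) :
    ∃ E : Set (X × Y), IsOpen E ∧ E ⊆ U ×ˢ V ∧ T ∩ C ×ˢ D ⊆ E ∧ closure (T ∩ E) ⊆ U ×ˢ V ∧
      Cov m (closure (T ∩ E) \ E) := by
  classical
  obtain ⟨F, H, hF, hH, hFH, hc⟩ := hcov
  -- relatively open sets in the rectangles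
  have key : ∀ a : ℕ, ∃ (G' : Set X) (K' : Set Y), IsOpen G' ∧ IsOpen K' ∧
      (∀ b, a + b + 1 = m + 1 → F a ∩ C ⊆ F a ∩ G' ∧ H a ∩ D ⊆ H a ∩ K' ∧
        closure (F a ∩ G') ⊆ U ∧ closure (H a ∩ K') ⊆ V ∧
        IsClosed (closure (F a ∩ G') \ (F a ∩ G')) ∧
        IsClosed (closure (H a ∩ K') \ (H a ∩ K')) ∧
        IndLT a (closure (F a ∩ G') \ (F a ∩ G') : Set X) ∧
        IndLT b (closure (H a ∩ K') \ (H a ∩ K') : Set Y)) := by
    intro a
    by_cases h : ∃ b, a + b + 1 = m + 1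
    · obtain ⟨b, hb⟩ := h
      obtain ⟨G, G', hG', rfl, h1, h2, h3, h4⟩ := exists_relOpen (hF a) (hFH a b hb).1 hC hU hCU
      obtain ⟨K, K', hK', rfl, k1, k2, k3, k4⟩ := exists_relOpen (hH a) (hFH a b hb).2 hD hV hDV
      refine ⟨G', K', hG', hK', fun b' hb' => ?_⟩
      have : b' = b := by omega
      subst this
      exact ⟨h1, k1, h2, k2, h3, k3, h4, k4⟩
    · exact ⟨univ, univ, isOpen_univ, isOpen_univ, fun b hb => (h ⟨b, hb⟩).elim⟩
  choose G' K' hG' hK' hGK using key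
  -- the bad part
  let R : Finset ℕ := Finset.range (m + 1)
  let Bad : Set (X × Y) := ⋃ a ∈ R, {z : X × Y | z.1 ∈ F a ∧ z.2 ∈ H a ∧
    ¬ (z.1 ∈ F a ∩ G' a ∧ z.2 ∈ H a ∩ K' a)}
  have hBad : IsClosed Bad := isClosed_biUnion_finset fun a _ =>
    isClosed_diff_rect (hF a) (hG' a) (hH a) (hK' a)
  have hb : ∀ a ∈ R, ∃ b, a + b + 1 = m + 1 := by
    intro a ha
    have := Finset.mem_range.1 ha
    exact ⟨m - a, by omega⟩
  have hUVo : IsOpen (U ×ˢ V) := hU.prod hV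
  have hE1 : T ∩ (U ×ˢ V ∩ Badᶜ) ⊆ ⋃ a ∈ R, (F a ∩ G' a) ×ˢ (H a ∩ K' a) := by
    rintro s ⟨hsS, hsUV, hsB⟩
    obtain ⟨a, ha, h1, h2⟩ := hc s ⟨hsS, hsUV⟩
    have haR : a ∈ R := Finset.mem_range.2 ha
    refine mem_iUnion₂.2 ⟨a, haR, ?_⟩
    by_contra hcon
    exact hsB (mem_iUnion₂.2 ⟨a, haR, h1, h2, fun h => hcon ⟨h.1, h.2⟩⟩)
  have hE2 : closure (T ∩ (U ×ˢ V ∩ Badᶜ)) ⊆
      ⋃ a ∈ R, closure (F a ∩ G' a) ×ˢ closure (H a ∩ K' a) := by
    refine closure_minimal (hE1.trans ?_) ?_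
    · exact iUnion₂_mono fun a _ => prod_mono subset_closure subset_closure
    · exact isClosed_biUnion_finset fun a _ => isClosed_closure.prod isClosed_closure
  have hE3 : closure (T ∩ (U ×ˢ V ∩ Badᶜ)) ⊆ U ×ˢ V := by
    intro s hs
    obtain ⟨a, ha, h1, h2⟩ := mem_iUnion₂.1 (hE2 hs)
    obtain ⟨b, hb⟩ := hb a ha
    obtain ⟨-, -, h3, h4, -⟩ := hGK a b hb
    exact ⟨h3 h1, h4 h2⟩
  refine ⟨U ×ˢ V ∩ Badᶜ, hUVo.inter hBad.isOpen_compl, inter_subset_left, ?_, hE3, ?_⟩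
  · rintro s ⟨-, hs1, hs2⟩
    refine ⟨⟨hCU hs1, hDV hs2⟩, fun hsB => ?_⟩
    obtain ⟨a, ha, h1, h2, h3⟩ := mem_iUnion₂.1 hsB
    obtain ⟨b, hb⟩ := hb a ha
    obtain ⟨h4, h5, -⟩ := hGK a b hb
    exact h3 ⟨h4 ⟨h1, hs1⟩, h5 ⟨h2, hs2⟩⟩
  · -- the boundary
    have hsub : closure (T ∩ (U ×ˢ V ∩ Badᶜ)) \ (U ×ˢ V ∩ Badᶜ) ⊆
        (⋃ a ∈ R, ((closure (F a ∩ G' a) \ (F a ∩ G' a)) ×ˢ closure (H a ∩ K' a) ∪
          closure (F a ∩ G' a) ×ˢ (closure (H a ∩ K' a) \ (H a ∩ K' a)))) ∪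
        ⋃ p ∈ (R ×ˢ R).filter (fun p => p.1 ≠ p.2),
          (F p.1 ∩ F p.2) ×ˢ (H p.1 ∩ H p.2) := by
      rintro s ⟨hs, hs'⟩
      have hsUV := hE3 hs
      have hsB : s ∈ Bad := by
        by_contra hcon
        exact hs' ⟨hsUV, hcon⟩
      obtain ⟨a, ha, h1, h2, h3⟩ := mem_iUnion₂.1 hsB
      obtain ⟨a', ha', h1', h2'⟩ := mem_iUnion₂.1 (hE2 hs)
      by_cases haa : a = a'
      · subst haa
        left
        refine mem_iUnion₂.2 ⟨a, ha, ?_⟩
        by_cases h4 : s.1 ∈ F a ∩ G' a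
        · exact Or.inr ⟨h1', h2', fun h5 => h3 ⟨h4, h5⟩⟩
        · exact Or.inl ⟨⟨h1', h4⟩, h2'⟩
      · right
        refine mem_iUnion₂.2 ⟨(a, a'), ?_, ⟨h1, ?_⟩, h2, ?_⟩
        · rw [Finset.mem_filter, Finset.mem_product]
          exact ⟨⟨ha, ha'⟩, haa⟩
        · exact closure_minimal inter_subset_left (hF a') h1'
        · exact closure_minimal inter_subset_left (hH a') h2'
    refine Cov.mono hsub (Cov.union hX hY (Cov.biUnion hX hY _ _ fun a ha => ?_)
      (Cov.biUnion hX hY _ _ fun p hp => ?_))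
    · obtain ⟨b, hb⟩ := hb a ha
      obtain ⟨-, -, -, -, h5, h6, h7, h8⟩ := hGK a b hb
      have hF' : IndLT (a + 1) (closure (F a ∩ G' a) : Set X) :=
        IndLT.mono_set isClosed_closure (closure_minimal inter_subset_left (hF a)) (hFH a b hb).1
      have hH' : IndLT (b + 1) (closure (H a ∩ K' a) : Set Y) :=
        IndLT.mono_set isClosed_closure (closure_minimal inter_subset_left (hH a)) (hFH a b hb).2
      refine Cov.union hX hY ?_ ?_
      · rcases a with _ | a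
        · have : (closure (F 0 ∩ G' 0) \ (F 0 ∩ G' 0) : Set X) = ∅ :=
            isEmpty_coe_sort.1 (show IsEmpty _ from h7)
          rw [this, empty_prod]
          exact Cov.empty m
        · exact Cov.rect (a := a) (b := b) (by omega) h5 isClosed_closure h7 hH'
      · rcases b with _ | b
        · have : (closure (H a ∩ K' a) \ (H a ∩ K' a) : Set Y) = ∅ :=
            isEmpty_coe_sort.1 (show IsEmpty _ from h8)
          rw [this, prod_empty]
          exact Cov.empty m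
        · exact Cov.rect (a := a) (b := b) (by omega) isClosed_closure h6 hF' h8
    · rw [Finset.mem_filter, Finset.mem_product] at hp
      obtain ⟨⟨hp1, hp2⟩, hne⟩ := hp
      obtain ⟨b1, hb1⟩ := hb p.1 hp1
      obtain ⟨b2, hb2⟩ := hb p.2 hp2
      have hFc := (hF p.1).inter (hF p.2)
      have hHc := (hH p.1).inter (hH p.2)
      rcases lt_or_gt_of_ne hne with hlt | hlt
      · exact Cov.rect (a := p.1) (b := b2) (by omega) hFc hHc
          (IndLT.mono_set hFc inter_subset_left (hFH _ _ hb1).1)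
          (IndLT.mono_set hHc inter_subset_right (hFH _ _ hb2).2)
      · exact Cov.rect (a := p.2) (b := b1) (by omega) hFc hHc
          (IndLT.mono_set hFc inter_subset_right (hFH _ _ hb2).1)
          (IndLT.mono_set hHc inter_subset_left (hFH _ _ hb1).2)

/-- `LocCov n Q`: locally in `X`, and locally in `Y` with respect to a continuous map of `Y` into
a metric space, the set `Q` is contained in a finite union of closed rectangles `F × H` with
`Ind F + Ind H ≤ n - 1`. -/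
def LocCov (n : ℕ) (Q : Set (X × Y)) : Prop :=
  ∀ x : X, ∃ Γ : Set X, IsOpen Γ ∧ x ∈ Γ ∧ ∃ (M : Type u) (_ : MetricSpace M) (g : Y → M),
    Continuous g ∧ ∀ p : M, ∃ O : Set M, IsOpen O ∧ p ∈ O ∧ Cov n (Q ∩ Γ ×ˢ (g ⁻¹' O))

theorem LocCov.of_cov {n : ℕ} {Q : Set (X × Y)} (h : Cov n Q) : LocCov n Q := by
  intro x
  exact ⟨univ, isOpen_univ, mem_univ x, PUnit, inferInstance, fun _ => PUnit.unit,
    continuous_const, fun p => ⟨univ, isOpen_univ, mem_univ p, Cov.mono inter_subset_left h⟩⟩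

theorem LocCov.union (hX : FiniteSumTheorem X) (hY : FiniteSumTheorem Y) {n : ℕ}
    {P Q : Set (X × Y)} (hP : LocCov n P) (hQ : LocCov n Q) : LocCov n (P ∪ Q) := by
  intro x
  obtain ⟨Γ, hΓ, hxΓ, M, _, g, hg, hc⟩ := hP x
  obtain ⟨Γ', hΓ', hxΓ', M', _, g', hg', hc'⟩ := hQ x
  refine ⟨Γ ∩ Γ', hΓ.inter hΓ', ⟨hxΓ, hxΓ'⟩, M × M', inferInstance, fun y => (g y, g' y),
    hg.prodMk hg', ?_⟩
  rintro ⟨p, p'⟩
  obtain ⟨O, hO, hpO, hcO⟩ := hc p
  obtain ⟨O', hO', hpO', hcO'⟩ := hc' p'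
  refine ⟨O ×ˢ O', hO.prod hO', ⟨hpO, hpO'⟩, Cov.mono ?_ (Cov.union hX hY hcO hcO')⟩
  rintro z ⟨hz | hz, ⟨h1, h2⟩, h3, h4⟩
  · exact Or.inl ⟨hz, h1, h3⟩
  · exact Or.inr ⟨hz, h2, h4⟩

theorem LocCov.mono {n : ℕ} {P Q : Set (X × Y)} (h : P ⊆ Q) (hQ : LocCov n Q) : LocCov n P := by
  intro x
  obtain ⟨Γ, hΓ, hxΓ, M, _, g, hg, hc⟩ := hQ x
  refine ⟨Γ, hΓ, hxΓ, M, _, g, hg, fun p => ?_⟩
  obtain ⟨O, hO, hpO, hcO⟩ := hc p
  exact ⟨O, hO, hpO, Cov.mono (inter_subset_inter_left _ h) hcO⟩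

theorem LocCov.eq_empty {Q : Set (X × Y)} (hQ : LocCov 0 Q) : Q = ∅ := by
  rw [eq_empty_iff_forall_notMem]
  intro z hz
  obtain ⟨Γ, hΓ, hxΓ, M, _, g, hg, hc⟩ := hQ z.1
  obtain ⟨O, hO, hpO, F, H, -, -, -, hcO⟩ := hc (g z.2)
  obtain ⟨a, ha, -⟩ := hcO z ⟨hz, hxΓ, hpO⟩
  exact absurd ha (Nat.not_lt_zero a)

end Product

/-! ### Partial separations near a locally compact closed set -/

section Local

variable {X : Type u} {Y : Type v} [TopologicalSpace X] [TopologicalSpace Y]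

theorem exists_compact_inter [T2Space X] [RegularSpace X] {K : Set X} (hK : IsClosed K)
    (hKl : LocallyCompactSpace K) (x : X) :
    ∃ Γ : Set X, IsOpen Γ ∧ x ∈ Γ ∧ IsCompact (closure Γ ∩ K) := by
  by_cases hx : x ∈ K
  · obtain ⟨N, hN, hNx⟩ := exists_compact_mem_nhds (⟨x, hx⟩ : K)
    obtain ⟨W, hW, hWN⟩ := mem_nhds_subtype K ⟨x, hx⟩ N |>.1 hNx
    obtain ⟨C, hC, hCc, hCW⟩ := exists_mem_nhds_isClosed_subset hW
    refine ⟨interior C, isOpen_interior, mem_interior_iff_mem_nhds.2 hC, ?_⟩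
    have hN' : IsCompact (Subtype.val '' N : Set X) := hN.image continuous_subtype_val
    refine hN'.of_isClosed_subset (isClosed_closure.inter hK) ?_
    rintro y ⟨hy1, hy2⟩
    have hyC : y ∈ C := closure_minimal interior_subset hCc hy1
    exact ⟨⟨y, hy2⟩, hWN (hCW hyC), rfl⟩
  · obtain ⟨C, hC, hCc, hCW⟩ := exists_mem_nhds_isClosed_subset (hK.isOpen_compl.mem_nhds hx)
    refine ⟨interior C, isOpen_interior, mem_interior_iff_mem_nhds.2 hC, ?_⟩
    have : closure (interior C) ∩ K = ∅ := by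
      rw [eq_empty_iff_forall_notMem]
      rintro y ⟨hy1, hy2⟩
      exact hCW (closure_minimal interior_subset hCc hy1) hy2
    rw [this]
    exact isCompact_empty

/-- Refining the map into a metric space so that it also controls a separation of `A` and `B`
over the compact set `closure Γ ∩ K`. -/
theorem exists_metric_control [NormalSpace (X × Y)] {K : Set X} {n : ℕ} {Q A B : Set (X × Y)}
    (hK : ∀ x : X, ∃ Γ : Set X, IsOpen Γ ∧ x ∈ Γ ∧ IsCompact (closure Γ ∩ K))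
    (hQ : LocCov n Q) (hA : IsClosed A) (hB : IsClosed B) (hAB : Disjoint A B) (x : X) :
    ∃ Γ : Set X, IsOpen Γ ∧ x ∈ Γ ∧ IsCompact (closure Γ ∩ K) ∧
      ∃ (M : Type u) (_ : MetricSpace M) (g : Y → M), Continuous g ∧
        ∀ p : M, ∃ O : Set M, IsOpen O ∧ p ∈ O ∧ Cov n (Q ∩ Γ ×ˢ (g ⁻¹' O)) ∧
          ∀ l ∈ closure Γ ∩ K, ∃ R : Set X, IsOpen R ∧ l ∈ R ∧
            (Disjoint ((R ∩ Γ ∩ K) ×ˢ (g ⁻¹' O)) B ∨ Disjoint ((R ∩ Γ ∩ K) ×ˢ (g ⁻¹' O)) A) := by
  obtain ⟨f, hfA, hfB, -⟩ := exists_continuous_zero_one_of_isClosed hA hB hAB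
  obtain ⟨Γ₁, hΓ₁, hxΓ₁, M, _, g, hg, hc⟩ := hQ x
  obtain ⟨Γ₂, hΓ₂, hxΓ₂, hcomp₂⟩ := hK x
  have hcomp : IsCompact (closure (Γ₁ ∩ Γ₂) ∩ K) := by
    have h1 : closure (Γ₁ ∩ Γ₂) ∩ K = closure (Γ₁ ∩ Γ₂) ∩ (closure Γ₂ ∩ K) := by
      ext y
      constructor
      · rintro ⟨h1, h2⟩
        exact ⟨h1, closure_mono inter_subset_right h1, h2⟩
      · rintro ⟨h1, -, h2⟩
        exact ⟨h1, h2⟩
    rw [h1]
    exact hcomp₂.inter_left isClosed_closure
  refine ⟨Γ₁ ∩ Γ₂, hΓ₁.inter hΓ₂, ⟨hxΓ₁, hxΓ₂⟩, hcomp, ?_⟩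
  have hLc : CompactSpace ↥(closure (Γ₁ ∩ Γ₂) ∩ K) := isCompact_iff_compactSpace.1 hcomp
  let φ : C(Y, C(↥(closure (Γ₁ ∩ Γ₂) ∩ K), ℝ)) :=
    ContinuousMap.curry ⟨fun q : Y × ↥(closure (Γ₁ ∩ Γ₂) ∩ K) => f (q.2.1, q.1), by fun_prop⟩
  have hφ : ∀ y l, φ y l = f (l.1, y) := fun y l => rfl
  refine ⟨M × C(↥(closure (Γ₁ ∩ Γ₂) ∩ K), ℝ), inferInstance, fun y => (g y, φ y),
    hg.prodMk φ.continuous, ?_⟩
  rintro ⟨p, q⟩
  obtain ⟨O, hO, hpO, hcO⟩ := hc p
  refine ⟨O ×ˢ Metric.ball q (1 / 8), hO.prod Metric.isOpen_ball,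
    ⟨hpO, Metric.mem_ball_self (by norm_num)⟩, ?_, ?_⟩
  · refine Cov.mono ?_ hcO
    rintro z ⟨h1, ⟨h2, h3⟩, h4, h5⟩
    exact ⟨h1, h2, h4⟩
  · intro l hl
    have h1 : IsOpen {l' : ↥(closure (Γ₁ ∩ Γ₂) ∩ K) | dist (q l') (q ⟨l, hl⟩) < 1 / 8} :=
      isOpen_lt (by fun_prop) continuous_const
    obtain ⟨R, hR, hR'⟩ := isOpen_induced_iff.1 h1
    have hlR : l ∈ R := by
      have : (⟨l, hl⟩ : ↥(closure (Γ₁ ∩ Γ₂) ∩ K)) ∈ Subtype.val ⁻¹' R := by
        rw [hR']
        simp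
      exact this
    refine ⟨R, hR, hlR, ?_⟩
    have key : ∀ z ∈ (R ∩ (Γ₁ ∩ Γ₂) ∩ K) ×ˢ ((fun y => (g y, φ y)) ⁻¹' (O ×ˢ Metric.ball q (1 / 8))),
        dist (f z) (q ⟨l, hl⟩) < 1 / 4 := by
      rintro ⟨a, y⟩ ⟨⟨⟨ha1, ha2⟩, ha3⟩, hy1, hy2⟩
      have haL : a ∈ closure (Γ₁ ∩ Γ₂) ∩ K := ⟨subset_closure ha2, ha3⟩
      have h2 : (⟨a, haL⟩ : ↥(closure (Γ₁ ∩ Γ₂) ∩ K)) ∈ Subtype.val ⁻¹' R := ha1
      rw [hR'] at h2
      have h2' : dist (q ⟨a, haL⟩) (q ⟨l, hl⟩) < 1 / 8 := h2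
      have h3 : dist (φ y) q < 1 / 8 := hy2
      have h4 : dist (φ y ⟨a, haL⟩) (q ⟨a, haL⟩) < 1 / 8 :=
        lt_of_le_of_lt (ContinuousMap.dist_apply_le_dist _) h3
      have h5 := dist_triangle (φ y ⟨a, haL⟩) (q ⟨a, haL⟩) (q ⟨l, hl⟩)
      rw [hφ] at h4 h5
      dsimp only at h4 h5 ⊢
      linarith
    by_cases h : q ⟨l, hl⟩ ≤ 1 / 2
    · left
      rw [disjoint_left]
      intro z hz hzB
      have h2 := key z hz
      rw [hfB hzB, Real.dist_eq, abs_lt] at h2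
      simp only [Pi.one_apply] at h2
      linarith [h2.2]
    · right
      rw [disjoint_left]
      intro z hz hzA
      have h2 := key z hz
      rw [hfA hzA, Real.dist_eq, abs_lt] at h2
      simp only [Pi.zero_apply] at h2
      linarith [h2.1]

end Local

section Local

variable {X : Type u} {Y : Type v} [TopologicalSpace X] [TopologicalSpace Y]

/-- Partial separation: near `K × Y` (off a closed set `D'` disjoint from `K × Y`) the closed sets
`A` and `B` can be separated in `S` by a set whose boundary is of smaller dimension type. -/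
theorem exists_local_sep [T2Space X] [ParacompactSpace X] [NormalSpace (X × Y)]
    (hX : FiniteSumTheorem X) (hY : FiniteSumTheorem Y) {K : Set X} {m : ℕ}
    {S D Q A B : Set (X × Y)}
    (hK : ∀ x : X, ∃ Γ : Set X, IsOpen Γ ∧ x ∈ Γ ∧ IsCompact (closure Γ ∩ K))
    (hD : IsClosed D) (hDK : Disjoint D (K ×ˢ univ)) (hQ : LocCov (m + 1) Q)
    (hSDQ : S ⊆ D ∪ Q) (hA : IsClosed A) (hB : IsClosed B) (hAB : Disjoint A B) :
    ∃ G D' Q' : Set (X × Y), IsOpen G ∧ IsClosed D' ∧ Disjoint D' (K ×ˢ univ) ∧ LocCov m Q' ∧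
      S ∩ A ⊆ G ∪ D' ∧ closure (S ∩ G) ∩ B ⊆ D' ∧ closure (S ∩ G) \ G ⊆ D' ∪ Q' := by
  classical
  have h2 := exists_metric_control (K := K) (n := m + 1) (Q := Q) (A := A) (B := B) hK hQ hA hB hAB
  choose Γ hΓ hxΓ hcomp M instM g hg hO using h2
  choose O hOo hpO hOc hR using hO
  choose! R hRo hlR hRAB using hR
  -- locally finite refinements
  obtain ⟨Γ', hΓ'o, hΓ'U, hΓ'lf, hΓ'Γ⟩ := precise_refinement Γ hΓ
    (iUnion_eq_univ_iff.2 fun x => ⟨x, hxΓ x⟩)
  obtain ⟨v, hvU, hvo, hvΓ'⟩ := exists_iUnion_eq_closure_subset hΓ'o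
    (fun x => hΓ'lf.point_finite x) hΓ'U
  have h5 : ∀ x, ∃ O' w : M x → Set (M x), (∀ t, IsOpen (O' t)) ∧ LocallyFinite O' ∧
      (∀ t, O' t ⊆ O x t) ∧ (⋃ t, w t = univ) ∧ (∀ t, IsOpen (w t)) ∧
      ∀ t, closure (w t) ⊆ O' t := by
    intro x
    obtain ⟨O', h1, h2, h3, h4⟩ := precise_refinement (O x) (hOo x)
      (iUnion_eq_univ_iff.2 fun p => ⟨p, hpO x p⟩)
    obtain ⟨w, h5, h6, h7⟩ := exists_iUnion_eq_closure_subset h1 (fun p => h3.point_finite p) h2
    exact ⟨O', w, h1, h3, h4, h5, h6, h7⟩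
  choose O' w hO'o hO'lf hO'O hwU hwo hwO' using h5
  have h6 : ∀ x (t : M x), ∃ (J : Finset X) (n : X → Set X),
      (∀ l ∈ J, l ∈ closure (Γ x) ∩ K ∧ IsOpen (n l) ∧ closure (n l) ⊆ R x t l ∩ Γ' x) ∧
      closure (v x) ∩ K ⊆ ⋃ l ∈ J, n l := by
    intro x t
    have hvΓ : closure (v x) ⊆ closure (Γ x) :=
      (hvΓ' x).trans ((hΓ'Γ x).trans subset_closure)
    have hcomp' : IsCompact (closure (v x) ∩ K) := by
      have h1 : closure (v x) ∩ K = closure (v x) ∩ (closure (Γ x) ∩ K) := by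
        ext y
        constructor
        · rintro ⟨h1, h2⟩
          exact ⟨h1, hvΓ h1, h2⟩
        · rintro ⟨h1, -, h2⟩
          exact ⟨h1, h2⟩
      rw [h1]
      exact (hcomp x).inter_left isClosed_closure
    have h1 : ∀ l, ∃ n : Set X, l ∈ closure (v x) ∩ K →
        l ∈ n ∧ IsOpen n ∧ closure n ⊆ R x t l ∩ Γ' x := by
      intro l
      by_cases hl : l ∈ closure (v x) ∩ K
      · have hl' : l ∈ closure (Γ x) ∩ K := ⟨hvΓ hl.1, hl.2⟩
        have ho : IsOpen (R x t l ∩ Γ' x) := (hRo x t l hl').inter (hΓ'o x)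
        obtain ⟨C, hC, hCc, hCW⟩ := exists_mem_nhds_isClosed_subset
          (ho.mem_nhds ⟨hlR x t l hl', hvΓ' x hl.1⟩)
        exact ⟨interior C, fun _ => ⟨mem_interior_iff_mem_nhds.2 hC, isOpen_interior,
          (closure_minimal interior_subset hCc).trans hCW⟩⟩
      · exact ⟨∅, fun h => (hl h).elim⟩
    choose n hn using h1
    obtain ⟨J, hJ, hJc⟩ := hcomp'.elim_nhds_subcover n
      (fun l hl => (hn l hl).2.1.mem_nhds (hn l hl).1)
    exact ⟨J, n, fun l hl => ⟨⟨hvΓ (hJ l hl).1, (hJ l hl).2⟩, (hn l (hJ l hl)).2⟩, hJc⟩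
  choose J n hJ hJc using h6
  -- the pieces
  let ι := Σ x : X, Σ t : M x, J x t
  let T : Set (X × Y) := S \ D
  have hTQ : T ⊆ Q := fun z hz => (hSDQ hz.1).resolve_left hz.2
  let U : ι → Set X := fun i => R i.1 i.2.1 i.2.2.1 ∩ Γ' i.1
  let V : ι → Set Y := fun i => g i.1 ⁻¹' (O' i.1 i.2.1)
  let C : ι → Set X := fun i => n i.1 i.2.1 i.2.2.1
  let W : ι → Set Y := fun i => g i.1 ⁻¹' (w i.1 i.2.1)
  have hl : ∀ i : ι, i.2.2.1 ∈ closure (Γ i.1) ∩ K := fun i => (hJ i.1 i.2.1 _ i.2.2.2).1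
  have hUo : ∀ i, IsOpen (U i) := fun i => (hRo _ _ _ (hl i)).inter (hΓ'o _)
  have hVo : ∀ i, IsOpen (V i) := fun i => (hO'o _ _).preimage (hg _)
  have hCo : ∀ i, IsOpen (C i) := fun i => (hJ i.1 i.2.1 _ i.2.2.2).2.1
  have hWo : ∀ i, IsOpen (W i) := fun i => (hwo _ _).preimage (hg _)
  have hpieces : ∀ i : ι, ∃ E : Set (X × Y), IsOpen E ∧ E ⊆ U i ×ˢ V i ∧
      T ∩ C i ×ˢ W i ⊆ E ∧ closure (T ∩ E) ⊆ U i ×ˢ V i ∧ Cov m (closure (T ∩ E) \ E) := by
    intro i
    obtain ⟨E, h1, h2, h3, h4, h5⟩ := exists_piece hX hY (T := T) (m := m) (hUo i)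
      (isClosed_closure (s := C i)) (hJ i.1 i.2.1 _ i.2.2.2).2.2 (hVo i)
      ((isClosed_closure (s := w i.1 i.2.1)).preimage (hg i.1))
      (preimage_mono (hwO' i.1 i.2.1)) (by
        refine Cov.mono ?_ (hOc i.1 i.2.1)
        rintro z ⟨h1, h2, h3⟩
        exact ⟨hTQ h1, hΓ'Γ _ h2.2, hO'O _ _ h3⟩)
    refine ⟨E, h1, h2, ?_, h4, h5⟩
    rintro z ⟨h6, h7, h8⟩
    exact h3 ⟨h6, subset_closure h7, subset_closure h8⟩
  choose E hEo hEUV hTE hclE hCovE using hpieces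
  -- finiteness
  have hfin : ∀ (N : Set X), {x | (Γ' x ∩ N).Nonempty}.Finite → ∀ P : ∀ x, Set (M x),
      (∀ x, {t | (O' x t ∩ P x).Nonempty}.Finite) →
      {i : ι | ∃ z : X × Y, z ∈ U i ×ˢ V i ∧ z.1 ∈ N ∧
        ((Γ' i.1 ∩ N).Nonempty → g i.1 z.2 ∈ P i.1)}.Finite := by
    intro N hN P hP
    refine (hN.biUnion (t := fun x => ⋃ t ∈ {t | (O' x t ∩ P x).Nonempty},
      range (fun l : J x t => (⟨x, t, l⟩ : ι))) fun x _ =>
        (hP x).biUnion fun t _ => finite_range _).subset ?_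
    rintro ⟨x, t, l⟩ ⟨z, ⟨hz1, hz2⟩, hzN, hzP⟩
    have h1 : (Γ' x ∩ N).Nonempty := ⟨z.1, hz1.2, hzN⟩
    refine mem_iUnion₂.2 ⟨x, h1, mem_iUnion₂.2 ⟨t, ⟨g x z.2, hz2, hzP h1⟩, ⟨l, rfl⟩⟩⟩
  have hlf : LocallyFinite (fun i => U i ×ˢ V i) := by
    rintro ⟨x₀, y₀⟩
    obtain ⟨N, hN, hNfin⟩ := hΓ'lf x₀
    have hP : ∀ x, ∃ P : Set (M x), P ∈ 𝓝 (g x y₀) ∧ {t | (O' x t ∩ P).Nonempty}.Finite :=
      fun x => hO'lf x (g x y₀)
    choose P hPn hPf using hP
    refine ⟨N ×ˢ ⋂ x ∈ {x | (Γ' x ∩ N).Nonempty}, g x ⁻¹' P x, prod_mem_nhds hN ?_, ?_⟩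
    · rw [Filter.biInter_mem hNfin]
      exact fun x _ => (hg x).continuousAt.preimage_mem_nhds (hPn x)
    · refine (hfin N hNfin P hPf).subset ?_
      rintro i ⟨z, hz1, hz2, hz3⟩
      exact ⟨z, hz1, hz2, fun h => mem_iInter₂.1 hz3 i.1 h⟩
  -- types
  let τ : ι → Prop := fun i => Disjoint ((U i ∩ K) ×ˢ V i) B
  have hτ : ∀ i, ¬ τ i → Disjoint ((U i ∩ K) ×ˢ V i) A := by
    intro i hi
    have hsub : (U i ∩ K) ×ˢ V i ⊆
        (R i.1 i.2.1 i.2.2.1 ∩ Γ i.1 ∩ K) ×ˢ (g i.1 ⁻¹' (O i.1 i.2.1)) := by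
      rintro z ⟨⟨⟨h1, h2⟩, h3⟩, h4⟩
      exact ⟨⟨⟨h1, hΓ'Γ _ h2⟩, h3⟩, hO'O _ _ h4⟩
    rcases hRAB i.1 i.2.1 i.2.2.1 (hl i) with h | h
    · exact (hi (h.mono_left hsub)).elim
    · exact h.mono_left hsub
  have hlf1 : LocallyFinite (fun i : {i // τ i} => T ∩ E i.1) :=
    (hlf.comp_injective Subtype.val_injective).subset
      fun i => inter_subset_right.trans (hEUV i.1)
  have hlf2 : LocallyFinite (fun i : {i // τ i} => closure (T ∩ E i.1) ∩ B) :=
    (hlf.comp_injective Subtype.val_injective).subset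
      fun i => inter_subset_left.trans (hclE i.1)
  have hlf3 : LocallyFinite (fun i : {i // ¬ τ i} => closure (T ∩ E i.1) ∩ A) :=
    (hlf.comp_injective Subtype.val_injective).subset
      fun i => inter_subset_left.trans (hclE i.1)
  let G : Set (X × Y) := ⋃ i : {i // τ i}, E i.1
  let D1 : Set (X × Y) := ⋃ i : {i // τ i}, closure (T ∩ E i.1) ∩ B
  let D2 : Set (X × Y) := ⋃ i : {i // ¬ τ i}, closure (T ∩ E i.1) ∩ A
  let D3 : Set (X × Y) := (⋃ i, C i ×ˢ W i)ᶜ
  let Q' : Set (X × Y) := ⋃ i, closure (T ∩ E i) \ E i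
  have hclG : closure (S ∩ G) ⊆ D ∪ ⋃ i : {i // τ i}, closure (T ∩ E i.1) := by
    have h1 : S ∩ G ⊆ D ∪ ⋃ i : {i // τ i}, T ∩ E i.1 := by
      rintro z ⟨hz1, hz2⟩
      by_cases hzD : z ∈ D
      · exact Or.inl hzD
      · obtain ⟨i, hi⟩ := mem_iUnion.1 hz2
        exact Or.inr (mem_iUnion.2 ⟨i, ⟨hz1, hzD⟩, hi⟩)
    refine (closure_mono h1).trans ?_
    rw [closure_union, hD.closure_eq, hlf1.closure_iUnion]
  refine ⟨G, D ∪ (D1 ∪ (D2 ∪ D3)), Q', isOpen_iUnion fun i => hEo i.1, ?_, ?_, ?_, ?_, ?_, ?_⟩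
  · refine hD.union ((hlf2.isClosed_iUnion fun i => isClosed_closure.inter hB).union
      ((hlf3.isClosed_iUnion fun i => isClosed_closure.inter hA).union ?_))
    exact (isOpen_iUnion fun i => (hCo i).prod (hWo i)).isClosed_compl
  · refine disjoint_union_left.2 ⟨hDK, disjoint_union_left.2 ⟨?_, disjoint_union_left.2 ⟨?_, ?_⟩⟩⟩
    · rw [disjoint_left]
      rintro z hz ⟨hzK, -⟩
      obtain ⟨i, hz1, hz2⟩ := mem_iUnion.1 hz
      have h1 := hclE i.1 hz1
      exact disjoint_left.1 i.2 ⟨⟨h1.1, hzK⟩, h1.2⟩ hz2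
    · rw [disjoint_left]
      rintro z hz ⟨hzK, -⟩
      obtain ⟨i, hz1, hz2⟩ := mem_iUnion.1 hz
      have h1 := hclE i.1 hz1
      exact disjoint_left.1 (hτ i.1 i.2) ⟨⟨h1.1, hzK⟩, h1.2⟩ hz2
    · rw [disjoint_left]
      rintro z hz ⟨hzK, -⟩
      apply hz
      obtain ⟨x, hx⟩ := iUnion_eq_univ_iff.1 hvU z.1
      obtain ⟨t, ht⟩ := iUnion_eq_univ_iff.1 (hwU x) (g x z.2)
      obtain ⟨l, hlJ, hln⟩ := mem_iUnion₂.1 (hJc x t ⟨subset_closure hx, hzK⟩)
      exact mem_iUnion.2 ⟨⟨x, t, ⟨l, hlJ⟩⟩, hln, ht⟩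
  · -- `LocCov m Q'`
    intro x₀
    obtain ⟨N, hN, hNfin⟩ := hΓ'lf x₀
    have hNfin' : {x | (Γ' x ∩ interior N).Nonempty}.Finite :=
      hNfin.subset fun x hx => hx.mono (inter_subset_inter_right _ interior_subset)
    have : Fintype {x | (Γ' x ∩ interior N).Nonempty} := hNfin'.fintype
    refine ⟨interior N, isOpen_interior, mem_interior_iff_mem_nhds.2 hN,
      ((x : {x | (Γ' x ∩ interior N).Nonempty}) → M x.1), inferInstance,
      fun y x => g x.1 y, continuous_pi fun x => hg x.1, ?_⟩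
    intro p
    have hP : ∀ x, ∃ P : Set (M x), IsOpen P ∧
        (∀ h : (Γ' x ∩ interior N).Nonempty, p ⟨x, h⟩ ∈ P) ∧
        {t | (O' x t ∩ P).Nonempty}.Finite := by
      intro x
      by_cases h : (Γ' x ∩ interior N).Nonempty
      · obtain ⟨P, hP1, hP2⟩ := hO'lf x (p ⟨x, h⟩)
        refine ⟨interior P, isOpen_interior, fun _ => mem_interior_iff_mem_nhds.2 hP1, ?_⟩
        exact hP2.subset fun t ht => ht.mono (inter_subset_inter_right _ interior_subset)
      · refine ⟨∅, isOpen_empty, fun h' => (h h').elim, ?_⟩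
        simp
    choose P hPo hpP hPf using hP
    refine ⟨univ.pi fun x => P x.1, isOpen_set_pi finite_univ fun x _ => hPo x.1,
      fun x _ => hpP x.1 x.2, ?_⟩
    have hfin' := hfin (interior N) hNfin' P hPf
    refine Cov.mono ?_ (Cov.biUnion hX hY hfin'.toFinset (fun i => closure (T ∩ E i) \ E i)
      fun i _ => hCovE i)
    rintro z ⟨hz1, hz2, hz3⟩
    obtain ⟨i, hi⟩ := mem_iUnion.1 hz1
    refine mem_iUnion₂.2 ⟨i, ?_, hi⟩
    rw [Finite.mem_toFinset]
    exact ⟨z, hclE i hi.1, hz2, fun h => hz3 ⟨i.1, h⟩ (mem_univ _)⟩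
  · rintro a ⟨haS, haA⟩
    by_cases ha : a ∈ D ∪ (D1 ∪ (D2 ∪ D3))
    · exact Or.inr ha
    · left
      have haT : a ∈ T := ⟨haS, fun h => ha (Or.inl h)⟩
      have ha3 : a ∈ ⋃ i, C i ×ˢ W i := by
        by_contra h
        exact ha (Or.inr (Or.inr (Or.inr h)))
      obtain ⟨i, hi⟩ := mem_iUnion.1 ha3
      have haE : a ∈ E i := hTE i ⟨haT, hi⟩
      have hti : τ i := by
        by_contra h
        exact ha (Or.inr (Or.inr (Or.inl (mem_iUnion.2 ⟨⟨i, h⟩, subset_closure ⟨haT, haE⟩, haA⟩))))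
      exact mem_iUnion.2 ⟨⟨i, hti⟩, haE⟩
  · rintro b ⟨hb1, hb2⟩
    rcases hclG hb1 with h | h
    · exact Or.inl h
    · obtain ⟨i, hi⟩ := mem_iUnion.1 h
      exact Or.inr (Or.inl (mem_iUnion.2 ⟨i, hi, hb2⟩))
  · rintro z ⟨hz1, hz2⟩
    rcases hclG hz1 with h | h
    · exact Or.inl (Or.inl h)
    · obtain ⟨i, hi⟩ := mem_iUnion.1 h
      refine Or.inr (mem_iUnion.2 ⟨i.1, hi, fun h' => hz2 (mem_iUnion.2 ⟨i, h'⟩)⟩)

end Local

/-! ### The main induction -/

section Main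

variable {X : Type u} {Y : Type v} [TopologicalSpace X] [TopologicalSpace Y]

theorem indLT_of_locCov [T2Space X] [ParacompactSpace X] [NormalSpace (X × Y)]
    (hX : FiniteSumTheorem X) (hY : FiniteSumTheorem Y) (K : ℕ → Set X)
    (hKc : ∀ i, IsClosed (K i)) (hKl : ∀ i, LocallyCompactSpace (K i))
    (hKU : ⋃ i, K i = univ) (n : ℕ) :
    ∀ S : Set (X × Y), IsClosed S → (∀ i, ∃ D Q : Set (X × Y), IsClosed D ∧
      Disjoint D (K i ×ˢ univ) ∧ LocCov n Q ∧ S ⊆ D ∪ Q) → IndLT n S := by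
  induction n with
  | zero =>
    intro S _ hcov
    refine ⟨fun z => ?_⟩
    obtain ⟨i, hi⟩ := iUnion_eq_univ_iff.1 hKU z.1.1
    obtain ⟨D, Q, -, hDK, hQ, hS⟩ := hcov i
    rcases hS z.2 with h | h
    · exact disjoint_left.1 hDK h ⟨hi, mem_univ _⟩
    · rw [hQ.eq_empty] at h
      exact h
  | succ m ih =>
    intro S hS hcov A₀ U₀ hA₀ hU₀ hAU₀
    have hemb := hS.isClosedEmbedding_subtypeVal
    have hSn : NormalSpace S := hemb.normalSpace
    have hKlc := fun i => exists_compact_inter (hKc i) (hKl i)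
    obtain ⟨V, hV, hAV, hVB, hfr⟩ := glue (Z := S) (fun i => {z : S | z.1.1 ∈ K i})
      (fun i => (hKc i).preimage (continuous_fst.comp continuous_subtype_val))
      (fun z => iUnion_eq_univ_iff.1 hKU z.1.1)
      (fun P => LocCov m (Subtype.val '' P))
      (fun P Q hP hQ => by
        rw [image_union]
        exact LocCov.union hX hY hP hQ) (by
      intro i A B hA hB hAB
      obtain ⟨D, Q, hD, hDK, hQ, hSDQ⟩ := hcov i
      have hAB' : Disjoint (Subtype.val '' A : Set (X × Y)) (Subtype.val '' B) :=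
        (disjoint_image_iff Subtype.val_injective).2 hAB
      obtain ⟨G, D', Q', hG, hD', hD'K, hQ', h1, h2, h3⟩ := exists_local_sep hX hY (hKlc i) hD hDK
        hQ hSDQ (hemb.isClosedMap A hA) (hemb.isClosedMap B hB) hAB'
      have hcl : ∀ z : S, z ∈ closure (Subtype.val ⁻¹' G : Set S) → z.1 ∈ closure (S ∩ G) := by
        intro z hz
        have h4 : z.1 ∈ Subtype.val '' closure (Subtype.val ⁻¹' G : Set S) := ⟨z, hz, rfl⟩
        rw [← hemb.closure_image_eq, Subtype.image_preimage_coe] at h4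
        exact h4
      have hGo : IsOpen (Subtype.val ⁻¹' G : Set S) := hG.preimage continuous_subtype_val
      obtain ⟨G', D'', hG'o, hAG', hG'B, hD'', hD''K, hfr'⟩ := fix_sep (Z := S)
        (K := {z : S | z.1.1 ∈ K i}) (A := A) (B := B) (G := Subtype.val ⁻¹' G)
        (D := Subtype.val ⁻¹' D') (Q := Subtype.val ⁻¹' Q')
        ((hKc i).preimage (continuous_fst.comp continuous_subtype_val)) hA hB hAB hGo
        (hD'.preimage continuous_subtype_val)
        (disjoint_left.2 fun z hz hz' => disjoint_left.1 hD'K hz ⟨hz', mem_univ _⟩)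
        (fun a ha => h1 ⟨a.2, a, ha, rfl⟩)
        (fun b hb => h2 ⟨hcl b hb.1, b, hb.2, rfl⟩)
        (fun z hz => by
          rw [hGo.frontier_eq] at hz
          exact h3 ⟨hcl z hz.1, hz.2⟩)
      exact ⟨G', D'', Subtype.val ⁻¹' Q', hG'o, hAG', hG'B, hD'', hD''K,
        LocCov.mono (image_preimage_subset _ _) hQ', hfr'⟩)
      A₀ U₀ᶜ hA₀ hU₀.isClosed_compl (disjoint_compl_right_iff_subset.2 hAU₀)
    rw [disjoint_compl_right_iff_subset] at hVB
    refine ⟨V, hV, hAV, hVB, ?_⟩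
    have hclosed : IsClosed (Subtype.val '' frontier V : Set (X × Y)) :=
      hemb.isClosedMap _ isClosed_frontier
    refine IndLT.of_image_subset hS isClosed_frontier Subset.rfl
      (ih _ hclosed fun i => ?_)
    obtain ⟨D, Q, hD, hDK, hQ, hsub⟩ := hfr i
    refine ⟨Subtype.val '' D, Subtype.val '' Q, hemb.isClosedMap D hD, ?_, hQ, ?_⟩
    · rw [disjoint_left]
      rintro _ ⟨z, hz, rfl⟩ ⟨hz', -⟩
      exact disjoint_left.1 hDK hz hz'
    · rw [← image_union]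
      exact image_mono hsub

theorem ind_le_iff (n : ℕ) (X : Type u) [TopologicalSpace X] :
    Ind X ≤ (((n : ℤ) - 1 : ℤ) : WithTop ℤ) ↔ IndLT n X := by
  classical
  unfold Ind
  by_cases h : ∃ k : ℕ, IndLT k X
  · rw [dif_pos h, WithTop.coe_le_coe]
    constructor
    · intro hle
      exact IndLT.mono (by omega) (Nat.find_spec h)
    · intro hn
      have := Nat.find_min' h hn
      omega
  · rw [dif_neg h]
    constructor
    · intro hle
      exact absurd (top_le_iff.1 hle) (WithTop.coe_ne_top)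
    · intro hn
      exact absurd ⟨n, hn⟩ h

theorem ind_of_isEmpty (X : Type u) [TopologicalSpace X] [h : IsEmpty X] :
    Ind X = ((-1 : ℤ) : WithTop ℤ) := by
  classical
  have h0 : IndLT 0 X := h
  have hex : ∃ k : ℕ, IndLT k X := ⟨0, h0⟩
  unfold Ind
  rw [dif_pos hex]
  have h1 : Nat.find hex = 0 := Nat.le_zero.1 (Nat.find_min' hex h0)
  rw [h1]
  norm_num

theorem ind_nonneg (X : Type u) [TopologicalSpace X] [h : Nonempty X] :
    ((0 : ℤ) : WithTop ℤ) ≤ Ind X := by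
  rw [← not_lt]
  intro h1
  have h2 : IndLT 0 X := (ind_lt_iff 0 X).1 (by simpa using h1)
  exact h2.false h.some

theorem ind_prod_univ [T2Space X] [ParacompactSpace X] [NormalSpace (X × Y)]
    (hX : FiniteSumTheorem X) (hY : FiniteSumTheorem Y) (hσ : SigmaLocallyCompact X) {a b : ℕ}
    (ha : IndLT (a + 1) X) (hb : IndLT (b + 1) Y) : IndLT (a + b + 1) (X × Y) := by
  obtain ⟨K, hKc, hKl, hKU⟩ := hσ
  have h1 : IndLT (a + 1) (univ : Set X) :=
    IndLT.of_isClosedEmbedding _ (Homeomorph.Set.univ X).isClosedEmbedding ha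
  have h2 : IndLT (b + 1) (univ : Set Y) :=
    IndLT.of_isClosedEmbedding _ (Homeomorph.Set.univ Y).isClosedEmbedding hb
  have h3 : IndLT (a + b + 1) (univ : Set (X × Y)) := by
    refine indLT_of_locCov hX hY K hKc hKl hKU _ univ isClosed_univ fun i => ?_
    refine ⟨∅, univ, isClosed_empty, disjoint_bot_left, LocCov.of_cov ?_, subset_union_right⟩
    rw [← univ_prod_univ]
    exact Cov.rect le_rfl isClosed_univ isClosed_univ h1 h2
  exact IndLT.of_isClosedEmbedding _ (Homeomorph.Set.univ (X × Y)).symm.isClosedEmbedding h3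

/-- **Theorem (positive answer to Q1).** Let `X` and `Y` be spaces, at least one of them nonempty,
such that `X` is paracompact (Hausdorff) and `σ`-locally compact, `X × Y` is normal, and both `X`
and `Y` satisfy the finite sum theorem for `Ind`. Then `Ind (X × Y) ≤ Ind X + Ind Y`. -/
theorem result (X : Type u) (Y : Type v) [TopologicalSpace X] [TopologicalSpace Y]
    (hne : Nonempty X ∨ Nonempty Y) (hT2X : T2Space X) (hpar : ParacompactSpace X)
    (hσ : SigmaLocallyCompact X) (hnormal : NormalSpace (X × Y)) (hX : FiniteSumTheorem X)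
    (hY : FiniteSumTheorem Y) : Ind (X × Y) ≤ Ind X + Ind Y := by
  classical
  by_cases hXe : Nonempty X
  swap
  · have h1 : IsEmpty X := not_nonempty_iff.1 hXe
    have h2 : Nonempty Y := hne.resolve_left hXe
    have h3 := ind_nonneg Y
    rw [ind_of_isEmpty X, ind_of_isEmpty (X × Y)]
    calc ((-1 : ℤ) : WithTop ℤ) = ((-1 : ℤ) : WithTop ℤ) + ((0 : ℤ) : WithTop ℤ) := by
          rw [← WithTop.coe_add]; norm_num
      _ ≤ ((-1 : ℤ) : WithTop ℤ) + Ind Y := add_le_add_right h3 _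
  by_cases hYe : Nonempty Y
  swap
  · have h1 : IsEmpty Y := not_nonempty_iff.1 hYe
    have h3 := ind_nonneg X
    rw [ind_of_isEmpty Y, ind_of_isEmpty (X × Y)]
    calc ((-1 : ℤ) : WithTop ℤ) = ((0 : ℤ) : WithTop ℤ) + ((-1 : ℤ) : WithTop ℤ) := by
          rw [← WithTop.coe_add]; norm_num
      _ ≤ Ind X + ((-1 : ℤ) : WithTop ℤ) := add_le_add_left h3 _
  obtain ⟨x0⟩ := hXe
  obtain ⟨y0⟩ := hYe
  by_cases h1 : ∃ k, IndLT k X
  swap
  · have : Ind X = ⊤ := by
      unfold Ind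
      rw [dif_neg h1]
    rw [this, WithTop.top_add]
    exact le_top
  by_cases h2 : ∃ l, IndLT l Y
  swap
  · have : Ind Y = ⊤ := by
      unfold Ind
      rw [dif_neg h2]
    rw [this, WithTop.add_top]
    exact le_top
  have hk := Nat.find_spec h1
  have hl := Nat.find_spec h2
  have eX : Ind X = ((((Nat.find h1 : ℕ) : ℤ) - 1 : ℤ) : WithTop ℤ) := by
    unfold Ind
    rw [dif_pos h1]
  have eY : Ind Y = ((((Nat.find h2 : ℕ) : ℤ) - 1 : ℤ) : WithTop ℤ) := by
    unfold Ind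
    rw [dif_pos h2]
  obtain ⟨a, ha⟩ : ∃ a, Nat.find h1 = a + 1 := by
    rcases hn : Nat.find h1 with _ | a
    · rw [hn] at hk
      exact ((show IsEmpty X from hk).false x0).elim
    · exact ⟨a, rfl⟩
  obtain ⟨b, hb⟩ : ∃ b, Nat.find h2 = b + 1 := by
    rcases hn : Nat.find h2 with _ | b
    · rw [hn] at hl
      exact ((show IsEmpty Y from hl).false y0).elim
    · exact ⟨b, rfl⟩
  rw [ha] at hk
  rw [hb] at hl
  have hXY := (ind_le_iff (a + b + 1) (X × Y)).2 (ind_prod_univ hX hY hσ hk hl)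
  rw [eX, eY, ha, hb, ← WithTop.coe_add]
  refine hXY.trans (WithTop.coe_le_coe.2 ?_)
  push_cast
  omega

end Main

end Pool.Agent.Results.MP_bd525c_gt.IndProductSigmaLC
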